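import Pool.Agent.T9h67.OT.Mem

/-!
# A party that sends few bits
-/

set_option autoImplicit false

namespace Pool.Agent.T9h67.OT

open Finset

variable {X Y Z : Type} {a b : ℕ}

/-- the number of bits sent by the party `me` -/
def Protocol.sent (P : Protocol X Y Z a b) (me : Bool) : ℕ :=
  ((range P.n).filter (fun j => P.turn j = me)).card

/-- The receiver with the input `x` is simulated `K` times with the bits of the transcript; the
test is the probability that one of the runs sends exactly the bits that the receiver sends in the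
transcript and that the output of the first one of these runs is `z`: `(1 - v) ^ i * u` is the
probability that the first `i` runs do not agree with the transcript and that the next one agrees
and has the output `z`. -/
noncomputable def Protocol.simReceiver [DecidableEq Z] (P : Protocol X Y Z a b) (K : ℕ) (x : X)
    (z : Z) (τ : Fin P.n → Bool) : ℝ :=
  ∑ i ∈ range K, (1 - (P.receiver x).tot (List.ofFn τ)) ^ i * P.outWt x z (List.ofFn τ)

/-- The probability that one of `K` simulations of the sender with the input `y` sends exactly the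
bits that the sender sends in the transcript. -/
noncomputable def Protocol.simSender (P : Protocol X Y Z a b) (K : ℕ) (y : Y)
    (τ : Fin P.n → Bool) : ℝ :=
  1 - (1 - (P.sender y).tot (List.ofFn τ)) ^ K

/-! ### Lemmas -/

theorem run_sum_le {turn : ℕ → Bool} {me : Bool} {d : ℕ} (A : Party turn me d) (τ : List Bool) :
    ∀ (j : ℕ) (v : Fin d → ℝ), (∀ q, 0 ≤ v q) → ∑ q, run A.step j v τ q ≤ ∑ q, v q := by
  induction τ with
  | nil => intro j v _; exact le_rfl
  | cons m τ ih =>
    intro j v hv
    refine le_trans (ih _ _ fun q' => sum_nonneg fun q _ => mul_nonneg (hv q)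
      (A.step_nonneg _ _ _ _)) ?_
    rw [sum_comm]
    refine sum_le_sum fun q _ => ?_
    rw [← mul_sum]
    refine mul_le_of_le_one_right (hv q) ?_
    by_cases h : turn j = me
    · rw [← A.step_send j q h]
      exact single_le_sum (f := fun m => ∑ q', A.step j q m q')
        (fun m _ => sum_nonneg fun i _ => A.step_nonneg j q m i) (mem_univ m)
    · exact (A.step_receive j q m h).le

theorem Party.tot_le {turn : ℕ → Bool} {me : Bool} {d : ℕ} (A : Party turn me d)
    (τ : List Bool) : A.tot τ ≤ 1 := by
  have := run_sum_le A τ 0 A.init A.init_nonneg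
  rwa [A.init_sum] at this

theorem sum_run {turn : ℕ → Bool} {me : Bool} {d : ℕ} (A : Party turn me d) (n : ℕ) :
    ∀ (j : ℕ) (v : Fin d → ℝ), ∑ τ : Fin n → Bool, ∑ q, run A.step j v (List.ofFn τ) q =
      (∑ q, v q) * 2 ^ ((range n).filter (fun i => turn (j + i) = !me)).card := by
  induction n with
  | zero => intro j v; simp [run]
  | succ n ih =>
    intro j v
    rw [sum_cons (fun τ => ∑ q, run A.step j v τ q)]
    simp only [run, ih]
    have hS : ∀ m, ∑ q', ∑ q, v q * A.step j q m q' = ∑ q, v q * ∑ q', A.step j q m q' := by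
      intro m; rw [sum_comm]; exact sum_congr rfl fun p _ => by rw [mul_sum]
    simp only [hS]
    have hc : ((range (n + 1)).filter (fun i => turn (j + i) = !me)).card =
        (if turn j = !me then 1 else 0) +
          ((range n).filter (fun i => turn (j + 1 + i) = !me)).card := by
      rw [range_eq_Ico, ← Nat.Ico_zero_eq_range]
      rw [card_filter, card_filter, ← range_eq_Ico, sum_range_succ']
      rw [Nat.Ico_zero_eq_range, add_comm]
      simp only [add_zero]
      congr 1
      exact sum_congr rfl fun i _ => by rw [show j + (i + 1) = j + 1 + i by ring]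
    rw [hc]
    by_cases h : turn j = me
    · have h' : ¬ (turn j = !me) := by rw [h]; cases me <;> simp
      rw [if_neg h', zero_add, ← sum_mul]
      congr 1
      rw [sum_comm]
      refine sum_congr rfl fun q _ => ?_
      rw [← mul_sum, A.step_send j q h, mul_one]
    · have h' : turn j = !me := by cases me <;> cases h2 : turn j <;> simp_all
      rw [if_pos h', pow_add, pow_one]
      have h1 : ∀ m, ∑ q, v q * ∑ q', A.step j q m q' = ∑ q, v q := fun m =>
        sum_congr rfl fun p _ => by rw [A.step_receive j p m h, mul_one]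
      simp only [h1, sum_const, card_univ, Fintype.card_bool, nsmul_eq_mul]
      push_cast
      ring

theorem sum_tot_sender (P : Protocol X Y Z a b) (y : Y) :
    ∑ τ : Fin P.n → Bool, (P.sender y).tot (List.ofFn τ) = 2 ^ P.sent false := by
  have := sum_run (P.sender y) P.n 0 (P.sender y).init
  rw [(P.sender y).init_sum, one_mul] at this
  simpa [Party.tot, Party.wt, Protocol.sent] using this

theorem sum_tot_receiver (P : Protocol X Y Z a b) (x : X) :
    ∑ τ : Fin P.n → Bool, (P.receiver x).tot (List.ofFn τ) = 2 ^ P.sent true := by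
  have := sum_run (P.receiver x) P.n 0 (P.receiver x).init
  rw [(P.receiver x).init_sum, one_mul] at this
  simpa [Party.tot, Party.wt, Protocol.sent] using this

theorem geom (v : ℝ) (K : ℕ) : v * ∑ i ∈ range K, (1 - v) ^ i = 1 - (1 - v) ^ K := by
  have := geom_sum_mul_neg (1 - v) K
  rw [show 1 - (1 - v) = v by ring] at this
  rw [mul_comm]; exact this

theorem mul_pow_le (v : ℝ) (h0 : 0 ≤ v) (h1 : v ≤ 1) (K : ℕ) :
    v * (1 - v) ^ K ≤ 1 / (K + 1) := by
  have h2 := geom v (K + 1)
  have h3 : (K + 1 : ℝ) * (1 - v) ^ K ≤ ∑ i ∈ range (K + 1), (1 - v) ^ i := by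
    have : ∑ _i ∈ range (K + 1), (1 - v) ^ K ≤ ∑ i ∈ range (K + 1), (1 - v) ^ i :=
      sum_le_sum fun i hi => pow_le_pow_of_le_one (by linarith) (by linarith)
        (Nat.lt_succ_iff.1 (mem_range.1 hi))
    rw [sum_const, card_range, nsmul_eq_mul] at this
    push_cast at this
    exact this
  have h4 : 0 ≤ (1 - v) ^ (K + 1) := pow_nonneg (by linarith) _
  have h5 := mul_le_mul_of_nonneg_left h3 h0
  rw [h2] at h5
  rw [le_div_iff₀ (by positivity)]
  nlinarith

variable {f : X → Y → Z}

theorem few_received [DecidableEq Z] (P : Protocol X Y Z a b)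
    (T : ((Fin P.n → Bool) → ℝ) → Prop) {x x' : X} {y y' : Y} (h1 : f x y = f x y')
    (h2 : f x' y ≠ f x' y') (K : ℕ) (hT : T (P.simReceiver K x' (f x' y'))) {δ ε ε' : ℝ}
    (hc : P.Correct f δ) (hr : P.ReceiverPrivate T ε) (hs : P.SenderPrivate f T ε') :
    1 ≤ 2 * δ + 2 * ε + ε' + 2 ^ P.sent false / (K + 1) := by
  set g := P.simReceiver K x' (f x' y') with hg
  have key : ∀ y, P.expect x' y g = ∑ τ : Fin P.n → Bool, (P.sender y).tot (List.ofFn τ) *
      P.outWt x' (f x' y') (List.ofFn τ) -
      ∑ τ : Fin P.n → Bool, (P.sender y).tot (List.ofFn τ) *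
      (P.outWt x' (f x' y') (List.ofFn τ) * (1 - (P.receiver x').tot (List.ofFn τ)) ^ K) := by
    intro y
    rw [P.expect_eq, ← sum_sub_distrib]
    refine sum_congr rfl fun τ _ => ?_
    rw [hg, Protocol.simReceiver, ← sum_mul]
    have := geom ((P.receiver x').tot (List.ofFn τ)) K
    linear_combination (P.sender y).tot (List.ofFn τ) * P.outWt x' (f x' y') (List.ofFn τ) * this
  have e1 := sum_out_ge P f x' y' hc
  have e2 := sum_out_le P f x' y hc h2.symm
  have e3 : ∑ τ : Fin P.n → Bool, (P.sender y').tot (List.ofFn τ) *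
      (P.outWt x' (f x' y') (List.ofFn τ) * (1 - (P.receiver x').tot (List.ofFn τ)) ^ K) ≤
      2 ^ P.sent false / (K + 1) := by
    rw [← sum_tot_sender P y', sum_div]
    refine sum_le_sum fun τ _ => ?_
    rw [div_eq_mul_one_div]
    refine mul_le_mul_of_nonneg_left ?_ (Party.tot_nonneg _ _)
    have hw := Party.tot_nonneg (P.receiver x') (List.ofFn τ)
    have hw' := Party.tot_le (P.receiver x') (List.ofFn τ)
    refine le_trans (mul_le_mul_of_nonneg_right (outWt_le P x' _ _)
      (pow_nonneg (by linarith) _)) ?_
    exact mul_pow_le _ hw hw' K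
  have e4 : 0 ≤ ∑ τ : Fin P.n → Bool, (P.sender y).tot (List.ofFn τ) *
      (P.outWt x' (f x' y') (List.ofFn τ) * (1 - (P.receiver x').tot (List.ofFn τ)) ^ K) :=
    sum_nonneg fun τ _ => mul_nonneg (Party.tot_nonneg _ _) (mul_nonneg (outWt_nonneg P x' _ _)
      (pow_nonneg (by linarith [Party.tot_le (P.receiver x') (List.ofFn τ)]) _))
  have k1 := key y'
  have k2 := key y
  have a1 := abs_le.1 (hr x x' y' g hT)
  have a2 := abs_le.1 (hr x x' y g hT)
  have a3 := abs_le.1 (hs x y y' g h1 hT)
  linarith [a1.1, a1.2, a2.1, a2.2, a3.1, a3.2]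

theorem few_sent [DecidableEq Z] (P : Protocol X Y Z a b)
    (T : ((Fin P.n → Bool) → ℝ) → Prop) {x x' : X} {y y' : Y} (h1 : f x y = f x y')
    (h2 : f x' y ≠ f x' y') (K : ℕ) (hT : T (P.simSender K y')) {δ ε ε' : ℝ}
    (hc : P.Correct f δ) (hr : P.ReceiverPrivate T ε) (hs : P.SenderPrivate f T ε') :
    1 ≤ (K + 1) * δ + ε + ε' + 2 ^ P.sent true / (K + 1) := by
  set g := P.simSender K y' with hg
  have e1 : 1 - 2 ^ P.sent true / (K + 1) ≤ P.expect x y' g := by
    have h3 : P.expect x y' (fun τ => 1 - g τ) ≤ 2 ^ P.sent true / (K + 1) := by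
      rw [P.expect_eq, ← sum_tot_receiver P x, sum_div]
      refine sum_le_sum fun τ _ => ?_
      have hw := Party.tot_nonneg (P.receiver x) (List.ofFn τ)
      have hu := Party.tot_nonneg (P.sender y') (List.ofFn τ)
      have hu' := Party.tot_le (P.sender y') (List.ofFn τ)
      have := mul_le_mul_of_nonneg_left (mul_pow_le _ hu hu' K) hw
      rw [div_eq_mul_one_div]
      refine le_trans (le_of_eq ?_) this
      rw [hg, Protocol.simSender]
      ring
    have h5 := expect_sub P x y' (fun _ => 1) g
    rw [expect_one] at h5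
    linarith
  have e2 : P.expect x' y g ≤ (K + 1) * δ := by
    rw [P.expect_eq]
    have h3 := sum_out_le P f x' y' hc h2
    have h4 := hc x' y
    rw [error_eq] at h4
    calc ∑ τ : Fin P.n → Bool, (P.sender y).tot (List.ofFn τ) *
          (P.receiver x').tot (List.ofFn τ) * g τ
        ≤ ∑ τ : Fin P.n → Bool, (K * ((P.sender y').tot (List.ofFn τ) *
            P.outWt x' (f x' y) (List.ofFn τ)) + (P.sender y).tot (List.ofFn τ) *
            ((P.receiver x').tot (List.ofFn τ) - P.outWt x' (f x' y) (List.ofFn τ))) := by
          refine sum_le_sum fun τ _ => ?_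
          have hv := Party.tot_nonneg (P.sender y) (List.ofFn τ)
          have hv1 := Party.tot_le (P.sender y) (List.ofFn τ)
          have hu := Party.tot_nonneg (P.sender y') (List.ofFn τ)
          have hu1 := Party.tot_le (P.sender y') (List.ofFn τ)
          have ho := outWt_nonneg P x' (f x' y) (List.ofFn τ)
          have hl := outWt_le P x' (f x' y) (List.ofFn τ)
          have hb : g τ ≤ K * (P.sender y').tot (List.ofFn τ) := by
            have := one_add_mul_le_pow (a := -(P.sender y').tot (List.ofFn τ)) (by linarith) K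
            rw [hg, Protocol.simSender]
            rw [← sub_eq_add_neg] at this
            linarith
          have hg1 : g τ ≤ 1 := by
            rw [hg, Protocol.simSender]
            have := pow_nonneg (show 0 ≤ 1 - (P.sender y').tot (List.ofFn τ) by linarith) K
            linarith
          have hg0 : 0 ≤ g τ := by
            rw [hg, Protocol.simSender]
            have := pow_le_one₀ (n := K) (show 0 ≤ 1 - (P.sender y').tot (List.ofFn τ) by linarith)
              (by linarith)
            linarith
          have q1 : (P.sender y).tot (List.ofFn τ) * P.outWt x' (f x' y) (List.ofFn τ) * g τ ≤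
              K * ((P.sender y').tot (List.ofFn τ) * P.outWt x' (f x' y) (List.ofFn τ)) := by
            calc (P.sender y).tot (List.ofFn τ) * P.outWt x' (f x' y) (List.ofFn τ) * g τ
                ≤ 1 * P.outWt x' (f x' y) (List.ofFn τ) * g τ := by
                  refine mul_le_mul_of_nonneg_right (mul_le_mul_of_nonneg_right hv1 ho) hg0
              _ ≤ 1 * P.outWt x' (f x' y) (List.ofFn τ) *
                  (K * (P.sender y').tot (List.ofFn τ)) :=
                  mul_le_mul_of_nonneg_left hb (by linarith)
              _ = _ := by ring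
          have q2 : (P.sender y).tot (List.ofFn τ) *
              ((P.receiver x').tot (List.ofFn τ) - P.outWt x' (f x' y) (List.ofFn τ)) * g τ ≤
              (P.sender y).tot (List.ofFn τ) *
              ((P.receiver x').tot (List.ofFn τ) - P.outWt x' (f x' y) (List.ofFn τ)) :=
            mul_le_of_le_one_right (mul_nonneg hv (sub_nonneg.2 hl)) hg1
          linarith
      _ = K * ∑ τ : Fin P.n → Bool, (P.sender y').tot (List.ofFn τ) *
            P.outWt x' (f x' y) (List.ofFn τ) +
          ∑ τ : Fin P.n → Bool, (P.sender y).tot (List.ofFn τ) *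
            ((P.receiver x').tot (List.ofFn τ) - P.outWt x' (f x' y) (List.ofFn τ)) := by
          rw [sum_add_distrib, ← mul_sum]
      _ ≤ K * δ + δ := add_le_add (mul_le_mul_of_nonneg_left h3 (Nat.cast_nonneg K)) h4
      _ = (K + 1) * δ := by ring
  have a1 := abs_le.1 (hs x y y' g h1 hT)
  have a2 := abs_le.1 (hr x x' y g hT)
  linarith [a1.1, a1.2, a2.1, a2.2]

end Pool.Agent.T9h67.OT
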