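import Mathlib

/-!
# Interactive protocols of two parties with private states
-/

set_option autoImplicit false

namespace Pool.Agent.T9h67.OT

open Finset

/-- A party with the private states `0, ..., a - 1`. The party `me` sends the bit of round `j` if
`turn j = me` and receives it otherwise. `step j q m q'` is the probability that it sends `m` and
moves to the state `q'` (if it sends) or that it moves to `q'` when the bit is `m` (if it receives);
the present state is `q`. -/
structure Party (turn : ℕ → Bool) (me : Bool) (a : ℕ) where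
  init : Fin a → ℝ
  step : ℕ → Fin a → Bool → Fin a → ℝ
  init_nonneg : ∀ q, 0 ≤ init q
  init_sum : ∑ q, init q = 1
  step_nonneg : ∀ j q m q', 0 ≤ step j q m q'
  step_send : ∀ j q, turn j = me → ∑ m, ∑ q', step j q m q' = 1
  step_receive : ∀ j q m, turn j ≠ me → ∑ q', step j q m q' = 1

/-- A protocol of `n` rounds; the sender has an input in `Y` and `a` private states, the receiver
has an input in `X`, `b` private states and an output in `Z` that depends on the last state. -/
structure Protocol (X Y Z : Type) (a b : ℕ) where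
  n : ℕ
  turn : ℕ → Bool
  sender : Y → Party turn true a
  receiver : X → Party turn false b
  out : X → Fin b → Z

/-- the joint distribution after the rounds `j`, `j + 1`, ... with the bits in the list: `v` is the
joint distribution of the two states before the round `j` -/
noncomputable def jointRun {turn : ℕ → Bool} {a b : ℕ} (S : Party turn true a)
    (R : Party turn false b) : ℕ → (Fin a → Fin b → ℝ) → List Bool → Fin a → Fin b → ℝ
  | _, v, [] => v
  | j, v, m :: τ => jointRun S R (j + 1)
      (fun p' q' => ∑ p, ∑ q, v p q * S.step j p m p' * R.step j q m q') τ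

variable {X Y Z : Type} {a b : ℕ}

/-- the probability that the transcript is `τ` and the last states are `p` and `q` -/
noncomputable def Protocol.law (P : Protocol X Y Z a b) (x : X) (y : Y) (τ : Fin P.n → Bool)
    (p : Fin a) (q : Fin b) : ℝ :=
  jointRun (P.sender y) (P.receiver x) 0
    (fun p q => (P.sender y).init p * (P.receiver x).init q) (List.ofFn τ) p q

/-- the expectation of a function of the transcript -/
noncomputable def Protocol.expect (P : Protocol X Y Z a b) (x : X) (y : Y)
    (g : (Fin P.n → Bool) → ℝ) : ℝ :=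
  ∑ τ, ∑ p, ∑ q, P.law x y τ p q * g τ

open Classical in
/-- the probability that the output of the receiver is not `f x y` -/
noncomputable def Protocol.error (P : Protocol X Y Z a b) (f : X → Y → Z) (x : X) (y : Y) : ℝ :=
  ∑ τ, ∑ p, ∑ q, P.law x y τ p q * (if P.out x q = f x y then 0 else 1)

/-! ### Products -/

/-- the weight of the runs of a vector through the matrices `M j m` -/
noncomputable def run {d : ℕ} (M : ℕ → Fin d → Bool → Fin d → ℝ) :
    ℕ → (Fin d → ℝ) → List Bool → Fin d → ℝ
  | _, v, [] => v
  | j, v, m :: τ => run M (j + 1) (fun q' => ∑ q, v q * M j q m q') τ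

theorem jointRun_prod {turn : ℕ → Bool} (S : Party turn true a) (R : Party turn false b)
    (τ : List Bool) : ∀ (j : ℕ) (v : Fin a → ℝ) (w : Fin b → ℝ) (p : Fin a) (q : Fin b),
    jointRun S R j (fun p q => v p * w q) τ p q = run S.step j v τ p * run R.step j w τ q := by
  induction τ with
  | nil => intro j v w p q; rfl
  | cons m τ ih =>
    intro j v w p q
    rw [jointRun, run, run, ← ih]
    congr 1
    funext p' q'
    rw [sum_mul_sum]
    refine sum_congr rfl fun p _ => sum_congr rfl fun q _ => ?_
    ring

theorem run_nonneg {d : ℕ} {M : ℕ → Fin d → Bool → Fin d → ℝ} (hM : ∀ j q m q', 0 ≤ M j q m q')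
    (τ : List Bool) : ∀ (j : ℕ) (v : Fin d → ℝ), (∀ q, 0 ≤ v q) → ∀ q, 0 ≤ run M j v τ q := by
  induction τ with
  | nil => intro j v hv q; exact hv q
  | cons m τ ih =>
    intro j v hv q
    exact ih _ _ (fun q' => sum_nonneg fun q _ => mul_nonneg (hv q) (hM _ _ _ _)) q

/-- the weight of a party for a transcript -/
noncomputable def Party.wt {turn : ℕ → Bool} {me : Bool} {d : ℕ} (A : Party turn me d)
    (τ : List Bool) (q : Fin d) : ℝ := run A.step 0 A.init τ q

/-- the total weight -/
noncomputable def Party.tot {turn : ℕ → Bool} {me : Bool} {d : ℕ} (A : Party turn me d)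
    (τ : List Bool) : ℝ := ∑ q, A.wt τ q

theorem Party.wt_nonneg {turn : ℕ → Bool} {me : Bool} {d : ℕ} (A : Party turn me d)
    (τ : List Bool) (q : Fin d) : 0 ≤ A.wt τ q :=
  run_nonneg A.step_nonneg τ 0 _ A.init_nonneg q

theorem Party.tot_nonneg {turn : ℕ → Bool} {me : Bool} {d : ℕ} (A : Party turn me d)
    (τ : List Bool) : 0 ≤ A.tot τ := sum_nonneg fun q _ => A.wt_nonneg τ q

theorem Protocol.law_eq (P : Protocol X Y Z a b) (x : X) (y : Y) (τ : Fin P.n → Bool)
    (p : Fin a) (q : Fin b) :
    P.law x y τ p q = (P.sender y).wt (List.ofFn τ) p * (P.receiver x).wt (List.ofFn τ) q :=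
  jointRun_prod _ _ _ _ _ _ _ _

theorem Protocol.expect_eq (P : Protocol X Y Z a b) (x : X) (y : Y)
    (g : (Fin P.n → Bool) → ℝ) :
    P.expect x y g = ∑ τ, (P.sender y).tot (List.ofFn τ) * (P.receiver x).tot (List.ofFn τ) *
      g τ := by
  refine sum_congr rfl fun τ _ => ?_
  rw [Party.tot, Party.tot, sum_mul_sum, sum_mul]
  refine sum_congr rfl fun p _ => ?_
  rw [sum_mul]
  refine sum_congr rfl fun q _ => ?_
  rw [P.law_eq]

/-- sums over transcripts -/
theorem sum_cons {n : ℕ} (F : List Bool → ℝ) :
    ∑ τ : Fin (n + 1) → Bool, F (List.ofFn τ) =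
      ∑ m : Bool, ∑ τ : Fin n → Bool, F (m :: List.ofFn τ) := by
  rw [← Fintype.sum_prod_type', ← (Fin.consEquiv (fun _ : Fin (n + 1) => Bool)).sum_comp]
  refine sum_congr rfl fun p _ => ?_
  show F (List.ofFn (Fin.cons p.1 p.2 : Fin (n + 1) → Bool)) = _
  rw [List.ofFn_cons]

/-- the sum over all transcripts of the product of the total weights is one -/
theorem total {turn : ℕ → Bool} (S : Party turn true a) (R : Party turn false b) (n : ℕ) :
    ∀ (j : ℕ) (v : Fin a → ℝ) (w : Fin b → ℝ),
    ∑ τ : Fin n → Bool, (∑ p, run S.step j v (List.ofFn τ) p) *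
      (∑ q, run R.step j w (List.ofFn τ) q) = (∑ p, v p) * ∑ q, w q := by
  induction n with
  | zero => intro j v w; simp [run]
  | succ n ih =>
    intro j v w
    rw [sum_cons (fun τ => (∑ p, run S.step j v τ p) * (∑ q, run R.step j w τ q))]
    simp only [run]
    simp only [ih]
    have hS : ∀ m, ∑ p', ∑ p, v p * S.step j p m p' = ∑ p, v p * ∑ p', S.step j p m p' := by
      intro m; rw [sum_comm]; exact sum_congr rfl fun p _ => by rw [mul_sum]
    have hR : ∀ m, ∑ q', ∑ q, w q * R.step j q m q' = ∑ q, w q * ∑ q', R.step j q m q' := by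
      intro m; rw [sum_comm]; exact sum_congr rfl fun p _ => by rw [mul_sum]
    simp only [hS, hR]
    rcases h : turn j with _ | _
    · -- the receiver sends
      have h1 : ∀ m, ∑ p, v p * ∑ p', S.step j p m p' = ∑ p, v p := fun m =>
        sum_congr rfl fun p _ => by rw [S.step_receive j p m (by rw [h]; simp), mul_one]
      simp only [h1]
      rw [← mul_sum]
      congr 1
      rw [sum_comm]
      refine sum_congr rfl fun q _ => ?_
      rw [← mul_sum, R.step_send j q h, mul_one]
    · have h1 : ∀ m, ∑ q, w q * ∑ q', R.step j q m q' = ∑ q, w q := fun m =>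
        sum_congr rfl fun p _ => by rw [R.step_receive j p m (by rw [h]; simp), mul_one]
      simp only [h1]
      rw [← sum_mul]
      congr 1
      rw [sum_comm]
      refine sum_congr rfl fun q _ => ?_
      rw [← mul_sum, S.step_send j q h, mul_one]

end Pool.Agent.T9h67.OT
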