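import Pool.Agent.T9h67.OT.Defs

/-!
# A party with few private states
-/

set_option autoImplicit false

namespace Pool.Agent.T9h67.OT

open Finset

/-- A weighted automaton with `d` states and weights between `0` and `1`; the matrices depend on the
round. -/
structure Automaton (d : ℕ) where
  init : Fin d → ℝ
  mat : ℕ → Fin d → Bool → Fin d → ℝ
  fin : Fin d → ℝ
  init_mem : ∀ q, 0 ≤ init q ∧ init q ≤ 1
  mat_mem : ∀ j q m q', 0 ≤ mat j q m q' ∧ mat j q m q' ≤ 1
  fin_mem : ∀ q, 0 ≤ fin q ∧ fin q ≤ 1

/-- the value of a word -/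
noncomputable def Automaton.value {d : ℕ} (A : Automaton d) (τ : List Bool) : ℝ :=
  ∑ q, run A.mat 0 A.init τ q * A.fin q

open Classical in
/-- The test is the quotient of the values of two weighted automata with at most `d` states, or the
comparison of the first value with twice the second one. -/
def IsTest (d n : ℕ) (g : (Fin n → Bool) → ℝ) : Prop :=
  (∀ τ, 0 ≤ g τ ∧ g τ ≤ 1) ∧ ∃ d' ≤ d, ∃ A B : Automaton d',
    (∀ τ, g τ = A.value (List.ofFn τ) / B.value (List.ofFn τ)) ∨
    (∀ τ, g τ = if A.value (List.ofFn τ) ≤ 2 * B.value (List.ofFn τ) then 1 else 0)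

variable {X Y Z : Type} {a b : ℕ}

/-- the output is correct with probability at least `1 - δ` -/
def Protocol.Correct (P : Protocol X Y Z a b) (f : X → Y → Z) (δ : ℝ) : Prop :=
  ∀ x y, P.error f x y ≤ δ

/-- the tests do not distinguish the inputs of the receiver -/
def Protocol.ReceiverPrivate (P : Protocol X Y Z a b) (T : ((Fin P.n → Bool) → ℝ) → Prop)
    (ε : ℝ) : Prop :=
  ∀ x x' y g, T g → |P.expect x y g - P.expect x' y g| ≤ ε

/-- the tests do not distinguish inputs of the sender with the same output -/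
def Protocol.SenderPrivate (P : Protocol X Y Z a b) (f : X → Y → Z)
    (T : ((Fin P.n → Bool) → ℝ) → Prop) (ε : ℝ) : Prop :=
  ∀ x y y' g, f x y = f x y' → T g → |P.expect x y g - P.expect x y' g| ≤ ε

/-! ### General facts -/

/-- the weight of the runs of the receiver with output `z` -/
noncomputable def Protocol.outWt (P : Protocol X Y Z a b) [DecidableEq Z] (x : X) (z : Z)
    (τ : List Bool) : ℝ := ∑ q, (P.receiver x).wt τ q * (if P.out x q = z then 1 else 0)

section facts
variable (P : Protocol X Y Z a b) (f : X → Y → Z)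

theorem expect_one (x : X) (y : Y) : P.expect x y (fun _ => 1) = 1 := by
  rw [P.expect_eq]
  simp only [mul_one]
  have := total (P.sender y) (P.receiver x) P.n 0 (P.sender y).init (P.receiver x).init
  rw [(P.sender y).init_sum, (P.receiver x).init_sum, mul_one] at this
  exact this

theorem expect_mono (x : X) (y : Y) {g h : (Fin P.n → Bool) → ℝ} (hgh : ∀ τ, g τ ≤ h τ) :
    P.expect x y g ≤ P.expect x y h := by
  rw [P.expect_eq, P.expect_eq]
  exact sum_le_sum fun τ _ => mul_le_mul_of_nonneg_left (hgh τ)
    (mul_nonneg (Party.tot_nonneg _ _) (Party.tot_nonneg _ _))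

theorem expect_sub (x : X) (y : Y) (g h : (Fin P.n → Bool) → ℝ) :
    P.expect x y (fun τ => g τ - h τ) = P.expect x y g - P.expect x y h := by
  rw [P.expect_eq, P.expect_eq, P.expect_eq, ← sum_sub_distrib]
  exact sum_congr rfl fun τ _ => by ring

variable [DecidableEq Z]

theorem outWt_nonneg (x : X) (z : Z) (τ : List Bool) : 0 ≤ P.outWt x z τ :=
  sum_nonneg fun q _ => mul_nonneg (Party.wt_nonneg _ _ _) (by split <;> norm_num)

theorem outWt_le (x : X) (z : Z) (τ : List Bool) : P.outWt x z τ ≤ (P.receiver x).tot τ :=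
  sum_le_sum fun q _ => by
    have := Party.wt_nonneg (P.receiver x) τ q
    split <;> nlinarith

theorem error_eq (x : X) (y : Y) :
    P.error f x y = ∑ τ : Fin P.n → Bool, (P.sender y).tot (List.ofFn τ) *
      ((P.receiver x).tot (List.ofFn τ) - P.outWt x (f x y) (List.ofFn τ)) := by
  refine sum_congr rfl fun τ _ => ?_
  rw [Party.tot, Party.tot, Protocol.outWt, ← sum_sub_distrib, sum_mul_sum]
  refine sum_congr rfl fun p _ => sum_congr rfl fun q _ => ?_
  rw [P.law_eq]
  by_cases h : P.out x q = f x y <;> simp [h]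

/-- the probability of the output `z` -/
theorem sum_out_ge (x : X) (y : Y) {δ : ℝ} (hc : P.Correct f δ) :
    1 - δ ≤ ∑ τ : Fin P.n → Bool, (P.sender y).tot (List.ofFn τ) *
      P.outWt x (f x y) (List.ofFn τ) := by
  have h1 := hc x y
  rw [error_eq] at h1
  have h2 := expect_one P x y
  rw [P.expect_eq] at h2
  simp only [mul_one] at h2
  have h3 : ∑ τ : Fin P.n → Bool, (P.sender y).tot (List.ofFn τ) *
      ((P.receiver x).tot (List.ofFn τ) - P.outWt x (f x y) (List.ofFn τ)) =
      ∑ τ : Fin P.n → Bool, (P.sender y).tot (List.ofFn τ) * (P.receiver x).tot (List.ofFn τ) -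
      ∑ τ : Fin P.n → Bool, (P.sender y).tot (List.ofFn τ) * P.outWt x (f x y) (List.ofFn τ) := by
    rw [← sum_sub_distrib]
    exact sum_congr rfl fun τ _ => by ring
  linarith

theorem sum_out_le (x : X) (y : Y) {δ : ℝ} (hc : P.Correct f δ) {z : Z} (hz : z ≠ f x y) :
    ∑ τ : Fin P.n → Bool, (P.sender y).tot (List.ofFn τ) * P.outWt x z (List.ofFn τ) ≤ δ := by
  refine le_trans ?_ (hc x y)
  rw [error_eq]
  refine sum_le_sum fun τ _ => mul_le_mul_of_nonneg_left ?_ (Party.tot_nonneg _ _)
  rw [Party.tot, Protocol.outWt, Protocol.outWt, ← sum_sub_distrib]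
  refine sum_le_sum fun q _ => ?_
  have h0 := Party.wt_nonneg (P.receiver x) (List.ofFn τ) q
  by_cases h : P.out x q = z
  · rw [if_pos h, if_neg (by rw [h]; exact hz)]; linarith
  · rw [if_neg h]; split <;> linarith

end facts

/-! ### The receiver has few states -/

variable {f : X → Y → Z}

/-- the probability of the output `z` for the input `x`, given the transcript -/
noncomputable def post (P : Protocol X Y Z a b) [DecidableEq Z] (x : X) (z : Z)
    (τ : Fin P.n → Bool) : ℝ :=
  P.outWt x z (List.ofFn τ) / (P.receiver x).tot (List.ofFn τ)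

theorem receiver_bound [DecidableEq Z] (P : Protocol X Y Z a b)
    (T : ((Fin P.n → Bool) → ℝ) → Prop) {x x' : X} {y y' : Y} (h1 : f x y = f x y')
    (h2 : f x' y ≠ f x' y') (hT : T (post P x' (f x' y'))) {δ ε ε' : ℝ} (hc : P.Correct f δ)
    (hr : P.ReceiverPrivate T ε) (hs : P.SenderPrivate f T ε') : 1 ≤ 2 * δ + 2 * ε + ε' := by
  set g := post P x' (f x' y') with hg
  have key : ∀ y, P.expect x' y g = ∑ τ : Fin P.n → Bool, (P.sender y).tot (List.ofFn τ) *
      P.outWt x' (f x' y') (List.ofFn τ) := by
    intro y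
    rw [P.expect_eq]
    refine sum_congr rfl fun τ _ => ?_
    rw [hg, post, mul_assoc]
    congr 1
    rcases eq_or_ne ((P.receiver x').tot (List.ofFn τ)) 0 with h | h
    · have := outWt_le P x' (f x' y') (List.ofFn τ)
      have := outWt_nonneg P x' (f x' y') (List.ofFn τ)
      rw [h]; simp; linarith
    · field_simp
  have e1 := sum_out_ge P f x' y' hc
  have e2 := sum_out_le P f x' y hc h2.symm
  rw [← key] at e1 e2
  have a1 := abs_le.1 (hr x x' y' g hT)
  have a2 := abs_le.1 (hr x x' y g hT)
  have a3 := abs_le.1 (hs x y y' g h1 hT)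
  linarith [a1.1, a1.2, a2.1, a2.2, a3.1, a3.2]

/-! ### The sender has few states -/

open Classical in
/-- the transcript is at least half as likely for the input `y'` as for the input `y` -/
noncomputable def ratio (P : Protocol X Y Z a b) (y y' : Y) (τ : Fin P.n → Bool) : ℝ :=
  if (P.sender y).tot (List.ofFn τ) ≤ 2 * (P.sender y').tot (List.ofFn τ) then 1 else 0

theorem ratio_nonneg (P : Protocol X Y Z a b) (y y' : Y) (τ : Fin P.n → Bool) :
    0 ≤ ratio P y y' τ := by rw [ratio]; split <;> norm_num

theorem ratio_le (P : Protocol X Y Z a b) (y y' : Y) (τ : Fin P.n → Bool) :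
    ratio P y y' τ ≤ 1 := by rw [ratio]; split <;> norm_num

theorem sender_bound [DecidableEq Z] (P : Protocol X Y Z a b)
    (T : ((Fin P.n → Bool) → ℝ) → Prop) {x x' : X} {y y' : Y} (h1 : f x y = f x y')
    (h2 : f x' y ≠ f x' y') (hT : T (ratio P y y')) {δ ε ε' : ℝ} (hc : P.Correct f δ)
    (hr : P.ReceiverPrivate T ε) (hs : P.SenderPrivate f T ε') :
    1 ≤ 6 * δ + 2 * ε + 2 * ε' := by
  set g := ratio P y y' with hg
  -- at `y'`, `x` the test accepts with probability at least one half
  have e1 : 1 / 2 ≤ P.expect x y' g := by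
    have h3 : P.expect x y' (fun τ => 1 - g τ) ≤ 1 / 2 := by
      rw [P.expect_eq]
      have h4 := expect_one P x y
      rw [P.expect_eq] at h4
      calc ∑ τ : Fin P.n → Bool, (P.sender y').tot (List.ofFn τ) *
            (P.receiver x).tot (List.ofFn τ) * (1 - g τ)
          ≤ ∑ τ : Fin P.n → Bool, (1 / 2) * ((P.sender y).tot (List.ofFn τ) *
            (P.receiver x).tot (List.ofFn τ) * 1) := by
            refine sum_le_sum fun τ _ => ?_
            have hw := Party.tot_nonneg (P.receiver x) (List.ofFn τ)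
            have hv := Party.tot_nonneg (P.sender y) (List.ofFn τ)
            rw [hg, ratio]
            split
            · nlinarith [mul_nonneg hv hw]
            · rename_i h
              push Not at h
              nlinarith [mul_le_mul_of_nonneg_right h.le hw]
        _ = 1 / 2 := by rw [← mul_sum, h4, mul_one]
    have h5 := expect_sub P x y' (fun _ => 1) g
    rw [expect_one] at h5
    linarith
  -- at `y`, `x'` the test accepts with small probability
  have e2 : P.expect x' y g ≤ 3 * δ := by
    rw [P.expect_eq]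
    have h3 := sum_out_le P f x' y' hc h2
    have h4 := hc x' y
    rw [error_eq] at h4
    calc ∑ τ : Fin P.n → Bool, (P.sender y).tot (List.ofFn τ) *
          (P.receiver x').tot (List.ofFn τ) * g τ
        ≤ ∑ τ : Fin P.n → Bool, (2 * ((P.sender y').tot (List.ofFn τ) *
            P.outWt x' (f x' y) (List.ofFn τ)) + (P.sender y).tot (List.ofFn τ) *
            ((P.receiver x').tot (List.ofFn τ) - P.outWt x' (f x' y) (List.ofFn τ))) := by
          refine sum_le_sum fun τ _ => ?_
          have hw := Party.tot_nonneg (P.receiver x') (List.ofFn τ)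
          have hv := Party.tot_nonneg (P.sender y) (List.ofFn τ)
          have hv' := Party.tot_nonneg (P.sender y') (List.ofFn τ)
          have ho := outWt_nonneg P x' (f x' y) (List.ofFn τ)
          have hl := outWt_le P x' (f x' y) (List.ofFn τ)
          rw [hg, ratio]
          split
          · rename_i h
            nlinarith [mul_le_mul_of_nonneg_right h ho]
          · nlinarith [mul_nonneg hv (sub_nonneg.2 hl), mul_nonneg hv' ho]
      _ = 2 * ∑ τ : Fin P.n → Bool, (P.sender y').tot (List.ofFn τ) *
            P.outWt x' (f x' y) (List.ofFn τ) +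
          ∑ τ : Fin P.n → Bool, (P.sender y).tot (List.ofFn τ) *
            ((P.receiver x').tot (List.ofFn τ) - P.outWt x' (f x' y) (List.ofFn τ)) := by
          rw [sum_add_distrib, ← mul_sum]
      _ ≤ 2 * δ + δ := by linarith
      _ = 3 * δ := by ring
  have a1 := abs_le.1 (hs x y y' g h1 hT)
  have a2 := abs_le.1 (hr x x' y g hT)
  linarith [a1.1, a1.2, a2.1, a2.2]

/-! ### The tests are simple -/

theorem Party.init_le {turn : ℕ → Bool} {me : Bool} {d : ℕ} (A : Party turn me d) (q : Fin d) :
    A.init q ≤ 1 := by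
  rw [← A.init_sum]
  exact single_le_sum (fun i _ => A.init_nonneg i) (mem_univ q)

theorem Party.step_le {turn : ℕ → Bool} {me : Bool} {d : ℕ} (A : Party turn me d) (j : ℕ)
    (q : Fin d) (m : Bool) (q' : Fin d) : A.step j q m q' ≤ 1 := by
  have h1 : A.step j q m q' ≤ ∑ q', A.step j q m q' :=
    single_le_sum (fun i _ => A.step_nonneg j q m i) (mem_univ q')
  by_cases h : turn j = me
  · have h2 : ∑ q', A.step j q m q' ≤ ∑ m, ∑ q', A.step j q m q' :=
      single_le_sum (f := fun m => ∑ q', A.step j q m q')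
        (fun m _ => sum_nonneg fun i _ => A.step_nonneg j q m i) (mem_univ m)
    rw [A.step_send j q h] at h2
    linarith
  · rw [A.step_receive j q m h] at h1
    exact h1

/-- the automaton of a party -/
noncomputable def Party.aut {turn : ℕ → Bool} {me : Bool} {d : ℕ} (A : Party turn me d)
    (o : Fin d → ℝ) (ho : ∀ q, 0 ≤ o q ∧ o q ≤ 1) : Automaton d where
  init := A.init
  mat := A.step
  fin := o
  init_mem q := ⟨A.init_nonneg q, A.init_le q⟩
  mat_mem j q m q' := ⟨A.step_nonneg j q m q', A.step_le j q m q'⟩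
  fin_mem := ho

theorem isTest_post [DecidableEq Z] (P : Protocol X Y Z a b) (x : X) (z : Z) {d : ℕ}
    (h : b ≤ d) : IsTest d P.n (post P x z) := by
  refine ⟨fun τ => ⟨div_nonneg (outWt_nonneg P x z _) (Party.tot_nonneg _ _),
    div_le_one_of_le₀ (outWt_le P x z _) (Party.tot_nonneg _ _)⟩, b, h,
    (P.receiver x).aut (fun q => if P.out x q = z then 1 else 0)
      (fun q => by split <;> norm_num), (P.receiver x).aut (fun _ => 1)
      (fun q => by norm_num), Or.inl fun τ => ?_⟩
  simp only [post, Protocol.outWt, Party.tot, Automaton.value, Party.aut, Party.wt, mul_one]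

theorem isTest_ratio (P : Protocol X Y Z a b) (y y' : Y) {d : ℕ}
    (h : a ≤ d) : IsTest d P.n (ratio P y y') := by
  refine ⟨fun τ => ⟨ratio_nonneg P y y' τ, ratio_le P y y' τ⟩, a, h,
    (P.sender y).aut (fun _ => 1) (fun q => by norm_num),
    (P.sender y').aut (fun _ => 1) (fun q => by norm_num), Or.inr fun τ => ?_⟩
  unfold ratio
  refine if_congr ?_ rfl rfl
  simp only [Party.tot, Automaton.value, Party.aut, Party.wt, mul_one]

/-- few states of one party -/
theorem memory {f : X → Y → Z} (P : Protocol X Y Z a b) {d : ℕ} {δ ε ε' : ℝ}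
    (hf : ∃ x x' y y', f x y = f x y' ∧ f x' y ≠ f x' y') (hc : P.Correct f δ)
    (hr : P.ReceiverPrivate (IsTest d P.n) ε) (hs : P.SenderPrivate f (IsTest d P.n) ε')
    (hlt : 6 * δ + 2 * ε + 2 * ε' < 1) : d < a ∧ d < b := by
  classical
  obtain ⟨x, x', y, y', h1, h2⟩ := hf
  constructor
  · by_contra hn
    have := sender_bound P (IsTest d P.n) h1 h2 (isTest_ratio P y y' (not_lt.1 hn)) hc hr hs
    linarith
  · by_contra hn
    have hT := isTest_post P x' (f x' y') (not_lt.1 hn)
    have h3 := receiver_bound P (IsTest d P.n) h1 h2 hT hc hr hs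
    have h4 := (abs_nonneg _).trans (hr x x y _ hT)
    have h5 := (abs_nonneg _).trans (hs x y y _ rfl hT)
    have h6 : 0 ≤ δ := by
      refine le_trans ?_ (hc x y)
      rw [error_eq]
      exact sum_nonneg fun τ _ => mul_nonneg (Party.tot_nonneg _ _)
        (sub_nonneg.2 (outWt_le P x _ _))
    linarith

end Pool.Agent.T9h67.OT
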